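import Pool.Agent.H24.SCG.Base

/-!
Module EX of the project SCG: existence in rank four, transport by `iota`.
-/

namespace Pool.Agent.H73.SCG

open Pool.SCG Matrix

theorem image_comp {A B : Type*} [Group A] [Group B] (f : A →* B) {r : ℕ} (ρ : Fin r → A)
    (I : Set (Fin r)) :
    Subgroup.closure ((fun i => f (ρ i)) '' I) = (Subgroup.closure (ρ '' I)).map f := by
  rw [MonoidHom.map_closure, ← Set.image_comp]
  rfl

theorem stringC_map {A B : Type*} [Group A] [Group B] (f : A →* B) (hf : Function.Injective f)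
    {r : ℕ} {ρ : Fin r → A} (h : IsStringC r ρ) : IsStringC r (fun i => f (ρ i)) := by
  refine ⟨?_, ?_, ?_⟩
  · intro i
    rw [orderOf_injective f hf]
    exact h.invol i
  · intro i j hij
    rw [← map_mul, ← map_mul, h.comm i j hij]
  · intro I J
    rw [image_comp, image_comp, image_comp, ← Subgroup.map_inf_eq _ _ f hf, h.inter I J]

theorem closure_range {A B : Type*} [Group A] [Group B] (f : A →* B) {r : ℕ} (ρ : Fin r → A)
    (h : Subgroup.closure (Set.range ρ) = ⊤) :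
    Subgroup.closure (Set.range (fun i => f (ρ i))) = f.range := by
  have h1 : Set.range (fun i => f (ρ i)) = f '' Set.range ρ := by
    rw [← Set.range_comp]
    rfl
  rw [h1, ← MonoidHom.map_closure, h, ← MonoidHom.range_eq_map]

/-- a generator of the multiplicative group different from `-2`, of order more than two -/
theorem exists_tau (F : Type) [Field F] [Fintype F] (hq : Fintype.card F % 6 = 5)
    (h3 : (3 : F) ≠ 0) :
    ∃ τ : F, τ ≠ 0 ∧ τ ^ 2 ≠ 1 ∧ τ ≠ -2 ∧ ∀ x : F, x ≠ 0 → ∃ n : ℕ, τ ^ n = x := by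
  classical
  have hcard : 4 ≤ Nat.card Fˣ := by
    rw [Nat.card_eq_fintype_card, Fintype.card_units]
    omega
  have key : ∀ g : Fˣ, (∀ x : Fˣ, x ∈ Subgroup.zpowers g) →
      ((g : F) ^ 2 ≠ 1 ∧ ∀ x : F, x ≠ 0 → ∃ n : ℕ, (g : F) ^ n = x) := by
    intro g hg
    refine ⟨?_, ?_⟩
    · intro h
      have h1 : g ^ 2 = 1 := Units.ext (by simpa using h)
      have h2 : orderOf g = Nat.card Fˣ := orderOf_eq_card_of_forall_mem_zpowers hg
      have h4 : orderOf g ≤ 2 := orderOf_le_of_pow_eq_one (by norm_num) h1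
      omega
    · intro x hx
      have h1 := hg (Units.mk0 x hx)
      rw [← mem_powers_iff_mem_zpowers] at h1
      obtain ⟨n, hn⟩ := h1
      refine ⟨n, ?_⟩
      have h2 := congrArg (fun u : Fˣ => (u : F)) hn
      simpa using h2
  obtain ⟨g, hg⟩ := IsCyclic.exists_generator (α := Fˣ)
  by_cases h : (g : F) = -2
  · have hg' : ∀ x : Fˣ, x ∈ Subgroup.zpowers g⁻¹ := by
      intro x
      rw [Subgroup.zpowers_inv]
      exact hg x
    obtain ⟨k1, k2⟩ := key g⁻¹ hg'
    refine ⟨((g⁻¹ : Fˣ) : F), (g⁻¹).ne_zero, k1, ?_, k2⟩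
    intro h5
    have h6 : (g : F) * ((g⁻¹ : Fˣ) : F) = 1 := by
      rw [← Units.val_mul, mul_inv_cancel, Units.val_one]
    rw [h, h5] at h6
    apply h3
    have h7 : (3 : F) = (-2) * (-2) - 1 := by norm_num
    rw [h7, h6, sub_self]
  · obtain ⟨k1, k2⟩ := key g hg
    exact ⟨(g : F), g.ne_zero, k1, h, k2⟩

theorem ex_thm (hST4 : ST4Stmt) (hEXR : EXRStmt) (hEXA : EXAStmt) (hEXB : EXBStmt)
    (hEXC : EXCStmt) (hEXG : EXGStmt) (hIOT : IOTStmt) (hGOO : GOOStmt) : EXStmt := by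
  intro F _ _ hq
  obtain ⟨hG, h3, hcube⟩ := hGOO F hq
  obtain ⟨τ, t0, t1, t2, tgen⟩ := exists_tau F hq h3
  obtain ⟨a, b, c, d, hgens, ha, hb, hc, hd, haa, hbb, hcc, hdd, hac, had, hbd⟩ :=
    hEXR F τ hG.1 h3 t0
  obtain ⟨hab, hbc, hcd, hA⟩ := hEXA F τ hG h3 t0 t1 a b c d hgens
  have hB := hEXB F τ hG h3 t0 t1 t2 a b c d hgens
  have hC := hEXC F τ hG h3 t0 t1 a b c d hgens
  have hgen := hEXG F τ hG h3 t0 hcube tgen a b c d hgens
  have hstr : IsStringC 4 ![a, b, c, d] := hST4 (Cor F) a b c d ha hb hc hd haa hbb hcc hdd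
    hac had hbd hab hbc hcd hA hB hC
  obtain ⟨hinj, hrange, -, -⟩ := hIOT F hG
  refine ⟨fun i => iota F (![a, b, c, d] i), stringC_map (iota F) hinj hstr, ?_⟩
  rw [closure_range (iota F) ![a, b, c, d], hrange]
  have hr : Set.range ![a, b, c, d] = ({a, b, c, d} : Set (Cor F)) := by
    ext x
    constructor
    · rintro ⟨i, rfl⟩
      fin_cases i <;> simp
    · intro hx
      simp only [Set.mem_insert_iff, Set.mem_singleton_iff] at hx
      rcases hx with h | h | h | h
      · exact ⟨0, by simp [h]⟩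
      · exact ⟨1, by simp [h]⟩
      · exact ⟨2, by simp [h]⟩
      · exact ⟨3, by simp [h]⟩
  rw [hr, hgen]

end Pool.Agent.H73.SCG
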