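import Pool.Agent.H24.SCG.Base

/-!
Modules MONA and MONB of the project SCG: the monomial cases.
-/

namespace Pool.Agent.H73.SCG

open Pool.SCG Matrix

variable {F : Type*} [Field F]

theorem sm_sq : Sm F * Sm F = 1 := by
  ext i j
  fin_cases i <;> fin_cases j <;> simp [Sm, Matrix.mul_apply, Fin.sum_univ_three]

theorem jm_sq : Jm F * Jm F = 1 := by
  ext i j
  fin_cases i <;> fin_cases j <;> simp [Jm, Matrix.mul_apply, Fin.sum_univ_three]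

theorem dg_inv {p q r : F} (hp : p ≠ 0) (hq : q ≠ 0) (hr : r ≠ 0) :
    dg p q r * dg p⁻¹ q⁻¹ r⁻¹ = 1 := by
  rw [dg_mul, mul_inv_cancel₀ hp, mul_inv_cancel₀ hq, mul_inv_cancel₀ hr, dg_one]

/-- conjugation of an outer diagonal element with the inner `S` -/
theorem s_in_out {c x : Cor F} {p q r : F} (hc : Is c false (Sm F)) (hx : Is x true (dg p q r)) :
    Is (c * x * c) true (dg q p r) := by
  have h1 := (hc.mul_outer' hx sm_sq).mul_inner hc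
  have e : (Sm F).transpose * dg p q r * Sm F = dg q p r := by
    ext i j
    fin_cases i <;> fin_cases j <;> simp [Sm, dg, Matrix.mul_apply, Fin.sum_univ_three]
  rw [e] at h1
  exact h1

/-- conjugation of an outer diagonal element with the outer `S` -/
theorem s_out_out {c x : Cor F} {p q r : F} (hc : Is c true (Sm F)) (hx : Is x true (dg p q r))
    (hp : p ≠ 0) (hq : q ≠ 0) (hr : r ≠ 0) :
    Is (c * x * c) true (dg q⁻¹ p⁻¹ r⁻¹) := by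
  have h1 := hc.mul_outer' hx sm_sq
  have e0 : ((Sm F).transpose * dg p q r) * (dg p⁻¹ q⁻¹ r⁻¹ * Sm F) = 1 := by
    have e1 : (Sm F).transpose = Sm F := by
      ext i j
      fin_cases i <;> fin_cases j <;> simp [Sm]
    rw [e1]
    calc Sm F * dg p q r * (dg p⁻¹ q⁻¹ r⁻¹ * Sm F)
        = Sm F * (dg p q r * dg p⁻¹ q⁻¹ r⁻¹) * Sm F := by simp only [mul_assoc]
      _ = 1 := by rw [dg_inv hp hq hr, mul_one, sm_sq]
  have h2 := h1.mul_outer' hc e0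
  have e : (dg p⁻¹ q⁻¹ r⁻¹ * Sm F).transpose * Sm F = dg q⁻¹ p⁻¹ r⁻¹ := by
    ext i j
    fin_cases i <;> fin_cases j <;> simp [Sm, dg, Matrix.mul_apply, Fin.sum_univ_three]
  rw [e] at h2
  exact h2

/-- conjugation of an inner diagonal element with the outer `S` -/
theorem s_out_in {c x : Cor F} {p q r : F} (hc : Is c true (Sm F)) (hx : Is x false (dg p q r))
    (hp : p ≠ 0) (hq : q ≠ 0) (hr : r ≠ 0) :
    Is (c * x * c) false (dg q⁻¹ p⁻¹ r⁻¹) := by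
  have h1 := hc.mul_inner hx
  have e0 : (Sm F * dg p q r) * (dg p⁻¹ q⁻¹ r⁻¹ * Sm F) = 1 := by
    calc Sm F * dg p q r * (dg p⁻¹ q⁻¹ r⁻¹ * Sm F)
        = Sm F * (dg p q r * dg p⁻¹ q⁻¹ r⁻¹) * Sm F := by simp only [mul_assoc]
      _ = 1 := by rw [dg_inv hp hq hr, mul_one, sm_sq]
  have h2 := h1.mul_outer' hc e0
  have e : (dg p⁻¹ q⁻¹ r⁻¹ * Sm F).transpose * Sm F = dg q⁻¹ p⁻¹ r⁻¹ := by
    ext i j
    fin_cases i <;> fin_cases j <;> simp [Sm, dg, Matrix.mul_apply, Fin.sum_univ_three]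
  rw [e] at h2
  exact h2

/-- conjugation of an inner diagonal element with the inner `J` -/
theorem j_in_in {d x : Cor F} {p q r : F} (hd : Is d false (Jm F)) (hx : Is x false (dg p q r)) :
    Is (d * x * d) false (dg p r q) := by
  have h1 := (hd.mul_inner hx).mul_inner hd
  have e : Jm F * dg p q r * Jm F = dg p r q := by
    ext i j
    fin_cases i <;> fin_cases j <;> simp [Jm, dg, Matrix.mul_apply, Fin.sum_univ_three]
  rw [e] at h1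
  exact h1

/-- conjugation of an inner diagonal element with the outer `J` -/
theorem j_out_in {d x : Cor F} {p q r : F} (hd : Is d true (Jm F)) (hx : Is x false (dg p q r))
    (hp : p ≠ 0) (hq : q ≠ 0) (hr : r ≠ 0) :
    Is (d * x * d) false (dg p⁻¹ r⁻¹ q⁻¹) := by
  have h1 := hd.mul_inner hx
  have e0 : (Jm F * dg p q r) * (dg p⁻¹ q⁻¹ r⁻¹ * Jm F) = 1 := by
    calc Jm F * dg p q r * (dg p⁻¹ q⁻¹ r⁻¹ * Jm F)
        = Jm F * (dg p q r * dg p⁻¹ q⁻¹ r⁻¹) * Jm F := by simp only [mul_assoc]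
      _ = 1 := by rw [dg_inv hp hq hr, mul_one, jm_sq]
  have h2 := h1.mul_outer' hd e0
  have e : (dg p⁻¹ q⁻¹ r⁻¹ * Jm F).transpose * Jm F = dg p⁻¹ r⁻¹ q⁻¹ := by
    ext i j
    fin_cases i <;> fin_cases j <;> simp [Jm, dg, Matrix.mul_apply, Fin.sum_univ_three]
  rw [e] at h2
  exact h2

/-- product of two outer diagonal elements -/
theorem out_out {x y : Cor F} {p q r p' q' r' : F} (hx : Is x true (dg p q r))
    (hy : Is y true (dg p' q' r')) (hp : p ≠ 0) (hq : q ≠ 0) (hr : r ≠ 0) :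
    Is (x * y) false (dg (p⁻¹ * p') (q⁻¹ * q') (r⁻¹ * r')) := by
  have h1 := hx.mul_outer' hy (dg_inv hp hq hr)
  rw [dg_transpose, dg_mul] at h1
  exact h1

/-- product of two inner diagonal elements -/
theorem in_in {x y : Cor F} {p q r p' q' r' : F} (hx : Is x false (dg p q r))
    (hy : Is y false (dg p' q' r')) : Is (x * y) false (dg (p * p') (q * q') (r * r')) := by
  have h1 := hx.mul_inner hy
  rw [dg_mul] at h1
  exact h1

/-- the end of the argument: from the inner inverse diagonal to the outer identity -/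
theorem final {X : Subgroup (Cor F)} {a b y : Cor F} {p q r : F} (hb : b ∈ X) (hy : y ∈ X)
    (ha : Is a true (dg 1 1 1)) (hb' : Is b true (dg p q r)) (hy' : Is y false (dg p⁻¹ q⁻¹ r⁻¹))
    (hp : p ≠ 0) (hq : q ≠ 0) (hr : r ≠ 0) : a ∈ X := by
  have h1 := hb'.mul_inner hy'
  rw [dg_inv hp hq hr, ← dg_one] at h1
  rw [ha.ext h1]
  exact X.mul_mem hb hy

theorem mona_thm : MONAStmt := by
  intro F _ _ hF X a b c d k hb hc hd hk ha' hb' hc' hd'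
  have hki : k⁻¹ ≠ 0 := inv_ne_zero hk
  have hk2 : k⁻¹ ^ 2 ≠ 0 := pow_ne_zero 2 hki
  obtain ⟨m, hm⟩ := pow_cube hF hk
  rcases hc' with hc' | hc'
  · -- `c` inner
    have h1 := s_in_out hc' hb'
    have h2 := out_out hb' h1 hk2 hk hk
    have m2 : b * (c * b * c) ∈ X := X.mul_mem hb (X.mul_mem (X.mul_mem hc hb) hc)
    have h3 := j_in_in hd' h2
    have m3 : d * (b * (c * b * c)) * d ∈ X := X.mul_mem (X.mul_mem hd m2) hd
    have h4 := (in_in h2 h3).pow_dg m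
    have m4 := X.pow_mem (X.mul_mem m2 m3) m
    have e1 : ((k⁻¹ ^ 2)⁻¹ * k * ((k⁻¹ ^ 2)⁻¹ * k)) ^ m = (k⁻¹ ^ 2)⁻¹ := by
      have : (k⁻¹ ^ 2)⁻¹ * k * ((k⁻¹ ^ 2)⁻¹ * k) = (k ^ 3) ^ 2 := by
        field_simp
      rw [this, ← pow_mul, mul_comm, pow_mul, hm]
      field_simp
    have e2 : (k⁻¹ * k⁻¹ ^ 2 * (k⁻¹ * k)) ^ m = k⁻¹ := by
      have : k⁻¹ * k⁻¹ ^ 2 * (k⁻¹ * k) = (k ^ 3)⁻¹ := by
        field_simp
      rw [this, inv_pow, hm]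
    have e3 : (k⁻¹ * k * (k⁻¹ * k⁻¹ ^ 2)) ^ m = k⁻¹ := by
      rw [mul_comm (k⁻¹ * k)]
      exact e2
    rw [e1, e2, e3] at h4
    exact final hb m4 ha' hb' h4 hk2 hk hk
  · -- `c` outer
    have h1 := s_out_out hc' hb' hk2 hk hk
    have h2 := out_out hb' h1 hk2 hk hk
    have m2 : b * (c * b * c) ∈ X := X.mul_mem hb (X.mul_mem (X.mul_mem hc hb) hc)
    have h3 := j_in_in hd' h2
    have m3 : d * (b * (c * b * c)) * d ∈ X := X.mul_mem (X.mul_mem hd m2) hd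
    have n1 : (k⁻¹ ^ 2)⁻¹ * k⁻¹ ≠ 0 := mul_ne_zero (inv_ne_zero hk2) hki
    have n2 : k⁻¹ * k⁻¹ ≠ 0 := mul_ne_zero hki hki
    have n3 : k⁻¹ * (k⁻¹ ^ 2)⁻¹ ≠ 0 := mul_ne_zero hki (inv_ne_zero hk2)
    have h4 := s_out_in hc' h3 n1 n2 n3
    have m4 : c * (d * (b * (c * b * c)) * d) * c ∈ X := X.mul_mem (X.mul_mem hc m3) hc
    have e1 : (k⁻¹ * k⁻¹)⁻¹ = (k⁻¹ ^ 2)⁻¹ := by
      field_simp
    have e2 : ((k⁻¹ ^ 2)⁻¹ * k⁻¹)⁻¹ = k⁻¹ := by
      field_simp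
    have e3 : (k⁻¹ * (k⁻¹ ^ 2)⁻¹)⁻¹ = k⁻¹ := by
      rw [mul_comm]
      exact e2
    rw [e1, e2, e3] at h4
    exact final hb m4 ha' hb' h4 hk2 hk hk

theorem monb_thm : MONBStmt := by
  intro F _ _ hF X a b c d k hb hc hd hk ha' hb' hc' hd'
  have hki : k⁻¹ ≠ 0 := inv_ne_zero hk
  obtain ⟨m, hm⟩ := pow_cube hF hk
  have h1o : (1 : F) ≠ 0 := one_ne_zero
  rcases hc' with hc' | hc'
  · -- `c` inner
    have h1 := s_in_out hc' hb'
    have h2 := out_out hb' h1 h1o hki hk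
    have m2 : b * (c * b * c) ∈ X := X.mul_mem hb (X.mul_mem (X.mul_mem hc hb) hc)
    have n1 : (1 : F)⁻¹ * k⁻¹ ≠ 0 := mul_ne_zero (inv_ne_zero h1o) hki
    have n2 : k⁻¹⁻¹ * 1 ≠ 0 := mul_ne_zero (inv_ne_zero hki) h1o
    have n3 : k⁻¹ * k ≠ 0 := mul_ne_zero hki hk
    have h3 := j_out_in hd' h2 n1 n2 n3
    have m3 : d * (b * (c * b * c)) * d ∈ X := X.mul_mem (X.mul_mem hd m2) hd
    have h4 := in_in h2 h3
    have m4 := X.mul_mem m2 m3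
    have e1 : (1 : F)⁻¹ * k⁻¹ * ((1 : F)⁻¹ * k⁻¹)⁻¹ = 1⁻¹ := by
      field_simp
    have e2 : k⁻¹⁻¹ * 1 * (k⁻¹ * k)⁻¹ = k⁻¹⁻¹ := by
      field_simp
    have e3 : k⁻¹ * k * (k⁻¹⁻¹ * 1)⁻¹ = k⁻¹ := by
      field_simp
    rw [e1, e2, e3] at h4
    exact final hb m4 ha' hb' h4 h1o hki hk
  · -- `c` outer
    have h1 := s_out_out hc' hb' h1o hki hk
    have h2 := out_out hb' h1 h1o hki hk
    have m2 : b * (c * b * c) ∈ X := X.mul_mem hb (X.mul_mem (X.mul_mem hc hb) hc)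
    have n1 : (1 : F)⁻¹ * k⁻¹⁻¹ ≠ 0 := mul_ne_zero (inv_ne_zero h1o) (inv_ne_zero hki)
    have n2 : k⁻¹⁻¹ * (1 : F)⁻¹ ≠ 0 := mul_ne_zero (inv_ne_zero hki) (inv_ne_zero h1o)
    have n3 : k⁻¹ * k⁻¹ ≠ 0 := mul_ne_zero hki hki
    have h3 := j_out_in hd' h2 n1 n2 n3
    have m3 : d * (b * (c * b * c)) * d ∈ X := X.mul_mem (X.mul_mem hd m2) hd
    have h4 := (in_in h2 h3).pow_dg m
    have m4 := X.pow_mem (X.mul_mem m2 m3) m
    have e1 : ((1 : F)⁻¹ * k⁻¹⁻¹ * ((1 : F)⁻¹ * k⁻¹⁻¹)⁻¹) ^ m = 1⁻¹ := by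
      rw [mul_inv_cancel₀ n1, one_pow, inv_one]
    have e2 : (k⁻¹⁻¹ * (1 : F)⁻¹ * (k⁻¹ * k⁻¹)⁻¹) ^ m = k⁻¹⁻¹ := by
      have : k⁻¹⁻¹ * (1 : F)⁻¹ * (k⁻¹ * k⁻¹)⁻¹ = k ^ 3 := by
        field_simp
      rw [this, hm, inv_inv]
    have e3 : (k⁻¹ * k⁻¹ * (k⁻¹⁻¹ * (1 : F)⁻¹)⁻¹) ^ m = k⁻¹ := by
      have : k⁻¹ * k⁻¹ * (k⁻¹⁻¹ * (1 : F)⁻¹)⁻¹ = (k ^ 3)⁻¹ := by
        field_simp
      rw [this, inv_pow, hm]
    rw [e1, e2, e3] at h4
    exact final hb m4 ha' hb' h4 h1o hki hk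

end Pool.Agent.H73.SCG
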